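import Pool.Agent.Y738.PE.Stm3
import Pool.Agent.Y70.PE.Region

/-! # Regions inside the `q × q` box (adapted from the file of helper70) -/

set_option autoImplicit false

open scoped BigOperators ComplexConjugate Classical Topology

noncomputable section

namespace Pool.Agent.Y759.PE

open Pool.Agent.Y738.PE Pool.Agent.Y70.PE

theorem regionIn : StmRegionIn := by
  intro d qq R hR B hB
  let pos : R → Fin qq × Fin qq := fun p =>
    (⟨p.1.1.toNat, by have := hR p.1 p.2; omega⟩, ⟨p.1.2.toNat, by have := hR p.1 p.2; omega⟩)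
  have hp1 : ∀ p : R, (((pos p).1 : ℕ) : ℤ) = p.1.1 := by
    intro p
    have := hR p.1 p.2
    change ((p.1.1.toNat : ℕ) : ℤ) = p.1.1
    omega
  have hp2 : ∀ p : R, (((pos p).2 : ℕ) : ℤ) = p.1.2 := by
    intro p
    have := hR p.1 p.2
    change ((p.1.2.toNat : ℕ) : ℤ) = p.1.2
    omega
  have hinj : Function.Injective pos := by
    intro p p' h
    have h1 := hp1 p
    have h2 := hp2 p
    rw [h] at h1 h2
    rw [hp1] at h1
    rw [hp2] at h2
    apply Subtype.ext
    apply Prod.ext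
    · omega
    · omega
  refine ⟨extB pos B, contr_ext pos hinj B hB, ?_⟩
  intro L _ hr Ψ v
  have hpv : ∀ p : R, (v.1 + ((p : ℤ × ℤ).1 : ZMod L), v.2 + ((p : ℤ × ℤ).2 : ZMod L)) =
      (v.1 + (((pos p).1 : ℕ) : ZMod L), v.2 + (((pos p).2 : ℕ) : ZMod L)) := by
    intro p
    have h1 : (((pos p).1 : ℕ) : ZMod L) = ((p.1.1 : ℤ) : ZMod L) := by
      rw [← hp1 p]
      push_cast
      rfl
    have h2 : (((pos p).2 : ℕ) : ZMod L) = ((p.1.2 : ℤ) : ZMod L) := by
      rw [← hp2 p]
      push_cast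
      rfl
    rw [h1, h2]
  have hres : ∀ s : Conf d L, (fun p => box qq s v (pos p)) = res R s v := by
    intro s
    funext p
    unfold box res
    rw [hpv p]
  have hin : ∀ w : Site L, ∀ h : (w.1 - v.1).val < qq ∧ (w.2 - v.2).val < qq,
      (v.1 + (((w.1 - v.1).val : ℕ) : ZMod L), v.2 + (((w.2 - v.2).val : ℕ) : ZMod L)) = w := by
    intro w _
    rw [ZMod.natCast_zmod_val, ZMod.natCast_zmod_val]
    apply Prod.ext
    · exact add_sub_cancel _ _
    · exact add_sub_cancel _ _
  have hboxin : ∀ q : Fin qq × Fin qq,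
      (v.1 + ((q.1 : ℕ) : ZMod L) - v.1).val = q.1 ∧
      (v.2 + ((q.2 : ℕ) : ZMod L) - v.2).val = q.2 := by
    intro q
    rw [add_sub_cancel_left, add_sub_cancel_left, ZMod.val_natCast_of_lt (q.1.2.trans_le hr),
      ZMod.val_natCast_of_lt (q.2.2.trans_le hr)]
    exact ⟨rfl, rfl⟩
  unfold expecR expec
  refine Finset.sum_congr rfl fun s _ => ?_
  rw [← Finset.sum_filter]
  have hR : ∑ τ : BConf d qq, conj (Ψ s) * extB pos B (box qq s v) τ *
      Ψ (put s v τ) = ∑ τ ∈ Finset.univ.filter (fun τ : BConf d qq =>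
        ∀ q, (∀ p, pos p ≠ q) → box qq s v q = τ q),
        conj (Ψ s) * B (res R s v) (fun p => τ (pos p)) * Ψ (put s v τ) := by
    rw [Finset.sum_filter]
    refine Finset.sum_congr rfl fun τ _ => ?_
    unfold extB
    by_cases h : ∀ q, (∀ p, pos p ≠ q) → box qq s v q = τ q
    · rw [if_pos h, if_pos h, hres]
    · rw [if_neg h, if_neg h, mul_zero, zero_mul]
  rw [hR]
  refine Finset.sum_bij' (fun s' _ => box qq s' v) (fun τ _ => put s v τ) ?_ ?_ ?_ ?_ ?_
  · intro s' hs'
    rw [Finset.mem_filter] at hs' ⊢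
    refine ⟨Finset.mem_univ _, fun q hq => ?_⟩
    refine hs'.2 _ fun p hp h => ?_
    rw [hpv ⟨p, hp⟩] at h
    refine hq ⟨p, hp⟩ ?_
    have h1 := add_left_cancel (congrArg Prod.fst h)
    have h2 := add_left_cancel (congrArg Prod.snd h)
    apply Prod.ext
    · exact Fin.ext (cast_inj hr (Fin.is_lt _) (Fin.is_lt _) h1.symm)
    · exact Fin.ext (cast_inj hr (Fin.is_lt _) (Fin.is_lt _) h2.symm)
  · intro τ hτ
    rw [Finset.mem_filter] at hτ ⊢
    refine ⟨Finset.mem_univ _, fun w hw => ?_⟩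
    by_cases h : (w.1 - v.1).val < qq ∧ (w.2 - v.2).val < qq
    · have h1 : put s v τ w = τ (⟨(w.1 - v.1).val, h.1⟩, ⟨(w.2 - v.2).val, h.2⟩) := by
        unfold put
        rw [dif_pos h]
      rw [h1, ← hτ.2]
      · unfold box
        change s w = s (v.1 + (((w.1 - v.1).val : ℕ) : ZMod L),
          v.2 + (((w.2 - v.2).val : ℕ) : ZMod L))
        rw [hin w h]
      · intro p hp
        refine hw p.1 p.2 ?_
        rw [hpv p, hp]
        exact (hin w h).symm
    · unfold put
      rw [dif_neg h]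
  · intro s' hs'
    rw [Finset.mem_filter] at hs'
    funext w
    by_cases h : (w.1 - v.1).val < qq ∧ (w.2 - v.2).val < qq
    · unfold put
      rw [dif_pos h]
      change s' (v.1 + (((w.1 - v.1).val : ℕ) : ZMod L),
          v.2 + (((w.2 - v.2).val : ℕ) : ZMod L)) = s' w
      rw [hin w h]
    · unfold put
      rw [dif_neg h]
      refine hs'.2 w fun p hp hw => h ?_
      rw [hw, hpv ⟨p, hp⟩]
      obtain ⟨h1, h2⟩ := hboxin (pos ⟨p, hp⟩)
      constructor
      · change (v.1 + (((pos ⟨p, hp⟩).1 : ℕ) : ZMod L) - v.1).val < qq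
        rw [h1]
        exact Fin.is_lt _
      · change (v.2 + (((pos ⟨p, hp⟩).2 : ℕ) : ZMod L) - v.2).val < qq
        rw [h2]
        exact Fin.is_lt _
  · intro τ _
    exact put_box hr s v τ
  · intro s' hs'
    rw [Finset.mem_filter] at hs'
    have h1 : put s v (box qq s' v) = s' := by
      funext w
      by_cases h : (w.1 - v.1).val < qq ∧ (w.2 - v.2).val < qq
      · unfold put
        rw [dif_pos h]
        change s' (v.1 + (((w.1 - v.1).val : ℕ) : ZMod L),
            v.2 + (((w.2 - v.2).val : ℕ) : ZMod L)) = s' w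
        rw [hin w h]
      · unfold put
        rw [dif_neg h]
        refine hs'.2 w fun p hp hw => h ?_
        rw [hw, hpv ⟨p, hp⟩]
        obtain ⟨h1, h2⟩ := hboxin (pos ⟨p, hp⟩)
        constructor
        · change (v.1 + (((pos ⟨p, hp⟩).1 : ℕ) : ZMod L) - v.1).val < qq
          rw [h1]
          exact Fin.is_lt _
        · change (v.2 + (((pos ⟨p, hp⟩).2 : ℕ) : ZMod L) - v.2).val < qq
          rw [h2]
          exact Fin.is_lt _
    rw [h1, hres]

end Pool.Agent.Y759.PE
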